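import Mathlib

/-!
# The degree-preserving Builder-Chooser game
-/

namespace Q160.DPG

/-- The intermediate graph of a growth step: the edges of `M` are removed from `G` and the new
vertex `none` is joined to every endpoint of an edge of `M`. -/
def grow {V : Type} (G M : SimpleGraph V) : SimpleGraph (Option V) where
  Adj x y := match x, y with
    | some u, some v => G.Adj u v ∧ ¬ M.Adj u v
    | some u, none => ∃ z, M.Adj u z
    | none, some v => ∃ z, M.Adj v z
    | none, none => False
  symm := ⟨by
    intro x y h
    match x, y, h with
    | some u, some v, h => exact ⟨h.1.symm, fun h' => h.2 h'.symm⟩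
    | some u, none, h => exact h
    | none, some v, h => exact h⟩
  loopless := ⟨by
    intro x h
    match x, h with
    | some u, h => exact G.irrefl h.1⟩

/-- `Forces k t G`: starting from the graph `G`, Builder has a strategy guaranteeing that after
exactly `t` rounds the current graph contains a complete graph on `k` vertices, whatever Chooser
does. In a round Builder picks a matching `M` of the current graph, the graph grows to
`grow G M`, Builder splits the edges of `grow G M` into two disjoint parts `H₀`, `H₁`, and Chooser
picks the part with which the game goes on. -/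
def Forces (k : ℕ) : ℕ → ∀ {V : Type}, SimpleGraph V → Prop
  | 0, _, G => ¬ G.CliqueFree k
  | t + 1, V, G => ∃ M : SimpleGraph V, M ≤ G ∧ (∀ u v w, M.Adj u v → M.Adj u w → v = w) ∧
      ∃ H₀ H₁ : SimpleGraph (Option V), H₀ ⊔ H₁ = grow G M ∧ Disjoint H₀ H₁ ∧
        Forces k t H₀ ∧ Forces k t H₁

/-- The forcing time of the complete graph on `k` vertices from the starting graph `G`. -/
noncomputable def tau (k : ℕ) {V : Type} (G : SimpleGraph V) : ℕ∞ :=
  ⨅ (t : ℕ) (_ : Forces k t G), (t : ℕ∞)

/-- The minimum of the forcing times over all finite triangle-free starting graphs. -/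
noncomputable def rho (k : ℕ) : ℕ∞ :=
  ⨅ (n : ℕ) (G : SimpleGraph (Fin n)) (_ : G.CliqueFree 3), tau k G

/-- The tower function: `tower 0 = 1`, `tower (n + 1) = 2 ^ tower n`. -/
def tower : ℕ → ℕ
  | 0 => 1
  | n + 1 => 2 ^ tower n

end Q160.DPG
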