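import Pool.Agent.Q160.DPG.Upper

/-!
# Chooser's strategy: keep every block of rounds independent
-/

namespace Q160.DPG

/-- Ordered pairs of adjacent vertices of the same block. -/
def bad {V : Type} (G : SimpleGraph V) (c : V → Option ℕ) : Set (V × V) :=
  {q | G.Adj q.1 q.2 ∧ c q.1 = c q.2 ∧ c q.1 ≠ none}

/-- The new vertex gets block `j`. -/
def ext {V : Type} (c : V → Option ℕ) (j : ℕ) : Option V → Option ℕ
  | none => some j
  | some v => c v

theorem ncard_bad_grow {V : Type} [Finite V] (G M : SimpleGraph V) (c : V → Option ℕ) (j : ℕ) :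
    (bad (grow G M) (ext c j)).ncard ≤ (bad G c).ncard + 2 * {v | c v = some j}.ncard := by
  have hsub : bad (grow G M) (ext c j) ⊆ ((Prod.map some some '' bad G c) ∪
      ((fun v => ((none : Option V), some v)) '' {v | c v = some j})) ∪
      ((fun v => (some v, (none : Option V))) '' {v | c v = some j}) := by
    rintro ⟨x, y⟩ ⟨h1, h2, h3⟩
    match x, y, h1, h2, h3 with
    | some u, some v, h1, h2, h3 =>
      exact Or.inl (Or.inl ⟨(u, v), ⟨h1.1, h2, h3⟩, rfl⟩)
    | some u, none, h1, h2, h3 =>
      exact Or.inr ⟨u, h2, rfl⟩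
    | none, some v, h1, h2, h3 =>
      exact Or.inl (Or.inr ⟨v, h2.symm, rfl⟩)
  calc (bad (grow G M) (ext c j)).ncard ≤ _ := Set.ncard_le_ncard hsub (Set.toFinite _)
    _ ≤ _ := Set.ncard_union_le _ _
    _ ≤ ((Prod.map some some '' bad G c).ncard +
        ((fun v => ((none : Option V), some v)) '' {v | c v = some j}).ncard) +
        ((fun v => (some v, (none : Option V))) '' {v | c v = some j}).ncard := by
      gcongr
      exact Set.ncard_union_le _ _
    _ ≤ ((bad G c).ncard + {v | c v = some j}.ncard) + {v | c v = some j}.ncard := by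
      gcongr <;> exact Set.ncard_image_le (Set.toFinite _)
    _ = _ := by ring

theorem ncard_bad_split {W : Type} [Finite W] {K H₀ H₁ : SimpleGraph W} (c : W → Option ℕ)
    (hsup : H₀ ⊔ H₁ = K) (hd : Disjoint H₀ H₁) :
    (bad H₀ c).ncard + (bad H₁ c).ncard ≤ (bad K c).ncard := by
  have hdis : Disjoint (bad H₀ c) (bad H₁ c) := by
    rw [Set.disjoint_left]
    rintro ⟨x, y⟩ h0 h1
    exact (SimpleGraph.disjoint_left.mp hd x y) h0.1 h1.1
  rw [← Set.ncard_union_eq hdis (Set.toFinite _) (Set.toFinite _)]
  refine Set.ncard_le_ncard ?_ (Set.toFinite _)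
  rintro ⟨x, y⟩ (h | h)
  · exact ⟨hsup ▸ (Or.inl h.1), h.2⟩
  · exact ⟨hsup ▸ (Or.inr h.1), h.2⟩

/-- The invariant: the blocks used so far are `j, …, B - 1`, and the vertices of the starting
graph span no triangle. -/
def Inv {V : Type} (B j : ℕ) (c : V → Option ℕ) (G : SimpleGraph V) : Prop :=
  (∀ v i, c v = some i → j ≤ i ∧ i < B) ∧
    ∀ u v w, c u = none → c v = none → c w = none → G.Adj u v → G.Adj v w → G.Adj u w → False

theorem Inv.grow {V : Type} {B j : ℕ} {c : V → Option ℕ} {G M : SimpleGraph V} (hj : j < B)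
    (h : Inv B j c G) {H : SimpleGraph (Option V)} (hH : H ≤ grow G M) :
    Inv B j (ext c j) H := by
  refine ⟨?_, ?_⟩
  · intro x i hx
    match x, hx with
    | none, hx =>
      simp only [ext, Option.some.injEq] at hx
      omega
    | some v, hx => exact h.1 v i hx
  · intro u v w hu hv hw h1 h2 h3
    match u, v, w, hu, hv, hw, h1, h2, h3 with
    | some u, some v, some w, hu, hv, hw, h1, h2, h3 =>
      exact h.2 u v w hu hv hw (hH h1).1 (hH h2).1 (hH h3).1

/-- If all blocks are independent, the clique number is at most the number of blocks plus 2. -/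
theorem cliqueFree_of_inv {V : Type} [Finite V] {B j k : ℕ} {c : V → Option ℕ}
    {G : SimpleGraph V} (h : Inv B j c G) (hb : (bad G c).ncard < 2) (hk : B + 3 ≤ k) :
    G.CliqueFree k := by
  by_contra hc
  rw [not_cliqueFree_iff'] at hc
  obtain ⟨f, hf⟩ := hc
  have hnb : ∀ i i', i ≠ i' → c (f i) = c (f i') → c (f i) = none := by
    intro i i' hne he
    by_contra hn
    have hsub : ({(f i, f i'), (f i', f i)} : Set (V × V)) ⊆ bad G c := by
      rintro q (rfl | rfl)
      · exact ⟨hf i i' hne, he, hn⟩
      · exact ⟨(hf i i' hne).symm, he.symm, he ▸ hn⟩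
    have h2 : ({(f i, f i'), (f i', f i)} : Set (V × V)).ncard = 2 := by
      apply Set.ncard_pair
      intro e
      have := (Prod.ext_iff.mp e).1
      simp only at this
      exact G.ne_of_adj (hf i i' hne) this
    have := Set.ncard_le_ncard hsub (Set.toFinite _)
    omega
  classical
  -- the indices with a block
  let A : Finset (Fin k) := Finset.univ.filter (fun i => c (f i) = none)
  have hA : A.card ≤ 2 := by
    by_contra hA
    push Not at hA
    obtain ⟨x, y, z, hx, hy, hz, hxy, hxz, hyz⟩ := Finset.two_lt_card_iff.mp hA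
    simp only [A, Finset.mem_filter, Finset.mem_univ, true_and] at hx hy hz
    exact h.2 _ _ _ hx hy hz (hf _ _ hxy) (hf _ _ hyz) (hf _ _ hxz)
  have hAc : Aᶜ.card ≤ B := by
    by_contra hAc
    push Not at hAc
    have hlt : (Finset.range B).card < Aᶜ.card := by simpa using hAc
    obtain ⟨x, hx, y, hy, hxy, he⟩ := Finset.exists_ne_map_eq_of_card_lt_of_maps_to hlt
      (f := fun i => (c (f i)).getD 0) (by
        intro i hi
        simp only [A, Finset.coe_compl, Finset.coe_filter, Set.mem_compl_iff, Finset.mem_univ,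
          true_and] at hi
        have hi : c (f i) ≠ none := hi
        obtain ⟨a, ha⟩ := Option.ne_none_iff_exists'.mp hi
        simp only [ha, Option.getD_some, Finset.coe_range, Set.mem_Iio]
        exact (h.1 _ _ ha).2)
    simp only [A, Finset.mem_compl, Finset.mem_filter, Finset.mem_univ, true_and] at hx hy
    obtain ⟨a, ha⟩ := Option.ne_none_iff_exists'.mp hx
    obtain ⟨b, hb⟩ := Option.ne_none_iff_exists'.mp hy
    simp only [ha, hb, Option.getD_some] at he
    have := hnb x y hxy (by rw [ha, hb, he])
    exact hx this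
  have := Finset.card_add_card_compl A
  rw [Fintype.card_fin] at this
  omega

/-- The ends of the blocks, counted from the last round. -/
def bb : ℕ → ℕ
  | 0 => 0
  | j + 1 => tower j + j + 1

theorem tower_pos (j : ℕ) : 0 < tower j := by
  cases j with
  | zero => norm_num [tower]
  | succ j => simp only [tower]; positivity

theorem tower_lt (j : ℕ) : tower j < tower (j + 1) := Nat.lt_two_pow_self

theorem bb_lt (j : ℕ) : bb j + 2 ≤ bb (j + 1) := by
  cases j with
  | zero => norm_num [bb, tower]
  | succ j =>
    have := tower_lt j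
    simp only [bb]
    omega

/-- The lengths of the blocks. -/
def dd (j : ℕ) : ℕ := bb (j + 1) - bb j

theorem bb_add_dd (j : ℕ) : bb j + dd j = bb (j + 1) := by
  have := bb_lt j
  simp only [dd]
  omega

theorem tower_mul (j : ℕ) : tower j * 2 ^ dd j = 2 * tower (j + 1) := by
  cases j with
  | zero => norm_num [dd, bb, tower]
  | succ j =>
    have h := tower_lt j
    have h2 := tower_pos j
    have e : tower (j + 1) * 2 ^ dd (j + 1) = 2 ^ (tower j + dd (j + 1)) := by
      rw [pow_add]; rfl
    rw [e]
    have e2 : tower j + dd (j + 1) = tower (j + 1) + 1 := by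
      simp only [dd, bb]
      omega
    rw [e2, pow_succ, mul_comm]
    rfl

theorem dd_le (j : ℕ) : dd (j + 1) ≤ tower (j + 1) := by
  have h2 := tower_pos j
  simp only [dd, bb]
  omega

theorem avoid {B k : ℕ} (hk : B + 3 ≤ k) : ∀ (j r : ℕ), j < B → r ≤ dd j →
    ∀ {V : Type} [Finite V] (G : SimpleGraph V) (c : V → Option ℕ), Inv B j c G →
    {v | c v = some j}.ncard + r ≤ dd j →
    (bad G c).ncard + 4 < 2 * ((dd j - r) + tower j * 2 ^ r) → ¬ Forces k (bb j + r) G := by
  intro j
  induction j with
  | zero =>
    intro r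
    induction r with
    | zero =>
      intro hj hr V _ G c hI hc hb hF
      have e : dd 0 = 2 := rfl
      simp only [e, tower] at hb
      exact hF (cliqueFree_of_inv hI (by omega) hk)
    | succ r ih =>
      intro hj hr V _ G c hI hc hb hF
      obtain ⟨M, hM, hm, H₀, H₁, hsup, hdisj, h0, h1⟩ := hF
      have hsplit := ncard_bad_split (ext c 0) hsup hdisj
      have hgrow := ncard_bad_grow G M c 0
      have hle0 : H₀ ≤ grow G M := hsup ▸ le_sup_left
      have hle1 : H₁ ≤ grow G M := hsup ▸ le_sup_right
      have hcount : {x | ext c 0 x = some 0}.ncard ≤ {v | c v = some 0}.ncard + 1 := by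
        have hs : {x | ext c 0 x = some 0} ⊆ (some '' {v | c v = some 0}) ∪ {none} := by
          intro x hx
          match x, hx with
          | none, _ => exact Or.inr rfl
          | some v, hx => exact Or.inl ⟨v, hx, rfl⟩
        calc _ ≤ _ := Set.ncard_le_ncard hs (Set.toFinite _)
          _ ≤ _ := Set.ncard_union_le _ _
          _ ≤ {v | c v = some 0}.ncard + 1 := by
            gcongr
            · exact Set.ncard_image_le (Set.toFinite _)
            · simp
      have hpow : 2 ^ (r + 1) = 2 * 2 ^ r := by ring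
      rw [hpow] at hb
      have hmul : tower 0 * (2 * 2 ^ r) = 2 * (tower 0 * 2 ^ r) := by ring
      rw [hmul] at hb
      generalize tower 0 * 2 ^ r = X at *
      rcases le_total (bad H₀ (ext c 0)).ncard (bad H₁ (ext c 0)).ncard with hle | hle
      · exact ih hj (by omega) H₀ (ext c 0) (hI.grow hj hle0) (by omega) (by omega) h0
      · exact ih hj (by omega) H₁ (ext c 0) (hI.grow hj hle1) (by omega) (by omega) h1
  | succ j ihj =>
    intro r
    induction r with
    | zero =>
      intro hj hr V _ G c hI hc hb hF
      have hI' : Inv B j c G := ⟨fun v i h => ⟨by have := (hI.1 v i h).1; omega, (hI.1 v i h).2⟩,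
        hI.2⟩
      have hz : {v | c v = some j}.ncard = 0 := by
        rw [Set.ncard_eq_zero (Set.toFinite _)]
        ext v
        simp only [Set.mem_ofPred_eq, Set.mem_empty_iff_false, iff_false]
        intro h
        have := (hI.1 v j h).1
        omega
      refine ihj (dd j) (by omega) le_rfl G c hI' (by omega) ?_ ?_
      · have h1 := tower_mul j
        have h2 := dd_le j
        rw [h1]
        simp only [pow_zero, mul_one] at hb
        omega
      · rw [bb_add_dd]
        exact hF
    | succ r ih =>
      intro hj hr V _ G c hI hc hb hF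
      obtain ⟨M, hM, hm, H₀, H₁, hsup, hdisj, h0, h1⟩ := hF
      have hsplit := ncard_bad_split (ext c (j + 1)) hsup hdisj
      have hgrow := ncard_bad_grow G M c (j + 1)
      have hle0 : H₀ ≤ grow G M := hsup ▸ le_sup_left
      have hle1 : H₁ ≤ grow G M := hsup ▸ le_sup_right
      have hcount : {x | ext c (j + 1) x = some (j + 1)}.ncard ≤
          {v | c v = some (j + 1)}.ncard + 1 := by
        have hs : {x | ext c (j + 1) x = some (j + 1)} ⊆
            (some '' {v | c v = some (j + 1)}) ∪ {none} := by
          intro x hx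
          match x, hx with
          | none, _ => exact Or.inr rfl
          | some v, hx => exact Or.inl ⟨v, hx, rfl⟩
        calc _ ≤ _ := Set.ncard_le_ncard hs (Set.toFinite _)
          _ ≤ _ := Set.ncard_union_le _ _
          _ ≤ {v | c v = some (j + 1)}.ncard + 1 := by
            gcongr
            · exact Set.ncard_image_le (Set.toFinite _)
            · simp
      have hpow : 2 ^ (r + 1) = 2 * 2 ^ r := by ring
      rw [hpow] at hb
      have hmul : tower (j + 1) * (2 * 2 ^ r) = 2 * (tower (j + 1) * 2 ^ r) := by ring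
      rw [hmul] at hb
      generalize tower (j + 1) * 2 ^ r = X at *
      rcases le_total (bad H₀ (ext c (j + 1))).ncard (bad H₁ (ext c (j + 1))).ncard with
        hle | hle
      · exact ih hj (by omega) H₀ (ext c (j + 1)) (hI.grow hj hle0) (by omega) (by omega) h0
      · exact ih hj (by omega) H₁ (ext c (j + 1)) (hI.grow hj hle1) (by omega) (by omega) h1

theorem exists_block : ∀ (B t : ℕ), 0 < B → t ≤ bb B → ∃ j r, j < B ∧ r ≤ dd j ∧ t = bb j + r
  | 0, _, h, _ => by omega
  | B + 1, t, _, ht => by
    by_cases h : bb B ≤ t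
    · refine ⟨B, t - bb B, by omega, ?_, by omega⟩
      have := bb_add_dd B
      omega
    · by_cases hB : B = 0
      · subst hB
        simp only [bb] at h
        omega
      · obtain ⟨j, r, h1, h2, h3⟩ := exists_block B t (by omega) (by omega)
        exact ⟨j, r, by omega, h2, h3⟩

theorem start_ok (j r : ℕ) (hr : r ≤ dd j) : 4 < 2 * ((dd j - r) + tower j * 2 ^ r) := by
  have h1 := bb_add_dd j
  have h2 := bb_lt j
  have h3 := tower_pos j
  have h4 : r < 2 ^ r := Nat.lt_two_pow_self
  have h5 : 2 ^ r ≤ tower j * 2 ^ r := Nat.le_mul_of_pos_left _ h3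
  by_cases hj : r < 2
  · have hr' : r = 0 ∨ r = 1 := by omega
    rcases hr' with rfl | rfl
    · simp only [pow_zero, mul_one]
      omega
    · omega
  · omega

theorem lt_of_forces {k t n : ℕ} (hk : 4 ≤ k) {G : SimpleGraph (Fin n)} (hG : G.CliqueFree 3)
    (hF : Forces k t G) : tower (k - 4) + (k - 2) ≤ t := by
  by_contra hlt
  push Not at hlt
  have hb : bb (k - 3) = tower (k - 4) + (k - 3) := by
    have e : k - 3 = (k - 4) + 1 := by omega
    rw [e]
    simp only [bb]
    have e2 : k - 4 + 1 - 1 = k - 4 := by omega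
    omega
  obtain ⟨j, r, hj, hr, rfl⟩ := exists_block (k - 3) t (by omega) (by omega)
  refine avoid (B := k - 3) (k := k) (by omega) j r hj hr G (fun _ => none) ?_ ?_ ?_ hF
  · refine ⟨fun v i h => by simp at h, ?_⟩
    intro u v w _ _ _ h1 h2 h3
    refine (not_cliqueFree_iff' G 3).mpr ⟨![u, v, w], ?_⟩ hG
    intro a b hab
    fin_cases a <;> fin_cases b <;> simp_all [SimpleGraph.adj_comm]
  · simp only [reduceCtorEq]
    have : ({v : Fin n | False} : Set (Fin n)).ncard = 0 := by simp
    omega
  · have : (bad G (fun _ => none)).ncard = 0 := by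
      rw [Set.ncard_eq_zero (Set.toFinite _)]
      ext q
      simp [bad]
    have := start_ok j r hr
    omega

theorem le_rho (k : ℕ) (hk : 4 ≤ k) : ((tower (k - 4) + (k - 2) : ℕ) : ℕ∞) ≤ rho k := by
  unfold rho tau
  refine le_iInf fun n => le_iInf fun G => le_iInf fun hG => le_iInf fun t => le_iInf fun hF => ?_
  exact_mod_cast lt_of_forces hk hG hF

end Q160.DPG
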