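import Pool.Agent.Q160.DPG.Defs

/-!
# Builder's strategy in the degree-preserving game
-/

namespace Q160.DPG

/-- A map which preserves adjacency and is injective on the non-isolated vertices. -/
def Emb {V W : Type} (G : SimpleGraph V) (H : SimpleGraph W) : Prop :=
  ∃ f : V → W, (∀ u v, G.Adj u v → H.Adj (f u) (f v)) ∧
    ∀ u u' v v', G.Adj u u' → G.Adj v v' → f u = f v → u = v

theorem not_cliqueFree_iff' {V : Type} (G : SimpleGraph V) (k : ℕ) :
    ¬ G.CliqueFree k ↔ ∃ f : Fin k → V, ∀ i j, i ≠ j → G.Adj (f i) (f j) := by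
  rw [SimpleGraph.not_cliqueFree_iff]
  constructor
  · rintro ⟨e⟩
    exact ⟨e.toHom, fun i j h => e.toHom.map_adj (by simpa using h)⟩
  · rintro ⟨f, hf⟩
    refine ⟨⟨⟨f, fun {i j} h => hf i j (by simpa using h)⟩, fun i j h => ?_⟩⟩
    by_contra hne
    have := hf i j hne
    change f i = f j at h
    rw [h] at this
    exact G.irrefl this

theorem adj_nonisolated {V : Type} {G M : SimpleGraph V} (hM : M ≤ G) {a b : Option V}
    (h : (grow G M).Adj a b) : a = none ∨ ∃ u u', a = some u ∧ G.Adj u u' := by
  match a, b, h with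
  | none, _, _ => exact Or.inl rfl
  | some u, some v, h => exact Or.inr ⟨u, v, rfl, h.1⟩
  | some u, none, h =>
    obtain ⟨z, hz⟩ := h
    exact Or.inr ⟨u, z, rfl, hM hz⟩

/-- The image of a graph under a map that sends edges to edges of a given graph. -/
def img {V W : Type} (G : SimpleGraph V) (K : SimpleGraph W) (f : V → W)
    (hf : ∀ u v, G.Adj u v → K.Adj (f u) (f v)) : SimpleGraph W where
  Adj a b := ∃ u v, G.Adj u v ∧ f u = a ∧ f v = b
  symm := ⟨by
    rintro a b ⟨u, v, h, h1, h2⟩
    exact ⟨v, u, h.symm, h2, h1⟩⟩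
  loopless := ⟨by
    rintro a ⟨u, v, h, h1, h2⟩
    have := hf u v h
    rw [h1, h2] at this
    exact K.irrefl this⟩

theorem img_le {V W : Type} {G : SimpleGraph V} {K : SimpleGraph W} {f : V → W}
    (hf : ∀ u v, G.Adj u v → K.Adj (f u) (f v)) : img G K f hf ≤ K := by
  rintro a b ⟨u, v, h, rfl, rfl⟩
  exact hf u v h

/-- One round: it suffices to find two edge-disjoint images of `K` in the grown graph. -/
theorem Forces.step {k t : ℕ} {V W : Type} {G : SimpleGraph V} {K K' : SimpleGraph W}
    (hmono : ∀ {X : Type} {A : SimpleGraph W} {B : SimpleGraph X}, Emb A B → Forces k t A →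
      Forces k t B)
    (M : SimpleGraph V) (hM : M ≤ G) (hm : ∀ u v w, M.Adj u v → M.Adj u w → v = w)
    (f g : W → Option V)
    (hf : ∀ u v, K.Adj u v → (grow G M).Adj (f u) (f v))
    (hg : ∀ u v, K'.Adj u v → (grow G M).Adj (g u) (g v))
    (hf' : ∀ u u' v v', K.Adj u u' → K.Adj v v' → f u = f v → u = v)
    (hg' : ∀ u u' v v', K'.Adj u u' → K'.Adj v v' → g u = g v → u = v)
    (hd : ∀ u v u' v', K.Adj u v → K'.Adj u' v' → f u = g u' → f v = g v' → False)
    (hK : Forces k t K) (hK' : Forces k t K') : Forces k (t + 1) G := by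
  refine ⟨M, hM, hm, img K (grow G M) f hf, grow G M \ img K (grow G M) f hf,
    sup_sdiff_cancel_right (img_le hf), disjoint_sdiff_self_right, ?_, ?_⟩
  · refine hmono ⟨f, ?_, hf'⟩ hK
    intro u v h
    exact ⟨u, v, h, rfl, rfl⟩
  · refine hmono ⟨g, ?_, hg'⟩ hK'
    intro u v h
    refine ⟨hg u v h, ?_⟩
    rintro ⟨a, b, hab, h1, h2⟩
    exact hd a b u v hab h h1 h2

theorem Forces.mono {k : ℕ} : ∀ (t : ℕ) {V W : Type} {G : SimpleGraph V} {H : SimpleGraph W},
    Emb G H → Forces k t G → Forces k t H
  | 0, V, W, G, H, hE, hF => by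
    obtain ⟨f, hf, -⟩ := hE
    change ¬ _ at hF
    change ¬ _
    rw [not_cliqueFree_iff'] at hF ⊢
    obtain ⟨c, hc⟩ := hF
    exact ⟨fun i => f (c i), fun i j h => hf _ _ (hc i j h)⟩
  | t + 1, V, W, G, H, hE, hF => by
    obtain ⟨f, hf, hi⟩ := hE
    obtain ⟨M, hM, hm, H₀, H₁, hsup, hdisj, h0, h1⟩ := hF
    have hfM : ∀ u v, M.Adj u v → H.Adj (f u) (f v) := fun u v h => hf u v (hM h)
    have hhom : ∀ a b, (grow G M).Adj a b →
        (grow H (img M H f hfM)).Adj (Option.map f a) (Option.map f b) := by
      intro a b h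
      match a, b, h with
      | some u, some v, h =>
        refine ⟨hf u v h.1, ?_⟩
        rintro ⟨u', v', h', e1, e2⟩
        have e1' := hi u' v' u v (hM h') h.1 e1
        have e2' := hi v' u' v u (hM h').symm h.1.symm e2
        subst e1' e2'
        exact h.2 h'
      | some u, none, h =>
        obtain ⟨z, hz⟩ := h
        exact ⟨f z, u, z, hz, rfl, rfl⟩
      | none, some v, h =>
        obtain ⟨z, hz⟩ := h
        exact ⟨f z, v, z, hz, rfl, rfl⟩
    have hinj : ∀ a a' b b', (grow G M).Adj a a' → (grow G M).Adj b b' →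
        Option.map f a = Option.map f b → a = b := by
      intro a a' b b' ha hb he
      rcases adj_nonisolated hM ha with rfl | ⟨u, u', rfl, hu⟩
      · rcases adj_nonisolated hM hb with rfl | ⟨v, v', rfl, hv⟩
        · rfl
        · simp at he
      · rcases adj_nonisolated hM hb with rfl | ⟨v, v', rfl, hv⟩
        · simp at he
        · simp only [Option.map_some, Option.some.injEq] at he
          rw [hi u u' v v' hu hv he]
    have hle0 : H₀ ≤ grow G M := hsup ▸ le_sup_left
    have hle1 : H₁ ≤ grow G M := hsup ▸ le_sup_right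
    refine Forces.step (K := H₀) (K' := H₁) (fun hE' hF' => Forces.mono t hE' hF')
      (img M H f hfM) (img_le hfM) ?_ (Option.map f) (Option.map f)
      (fun u v h => hhom u v (hle0 h)) (fun u v h => hhom u v (hle1 h))
      (fun u u' v v' h h' => hinj u u' v v' (hle0 h) (hle0 h'))
      (fun u u' v v' h h' => hinj u u' v v' (hle1 h) (hle1 h')) ?_ h0 h1
    · rintro a b c ⟨u, v, h, e1, e2⟩ ⟨u', v', h', e1', e2'⟩
      have := hi u v u' v' (hM h) (hM h') (e1.trans e1'.symm)
      subst this
      have := hm u v v' h h'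
      subst this
      exact e2.symm.trans e2'
    · intro u v u' v' h h' e1 e2
      have e1' := hinj u v u' v' (hle0 h) (hle1 h') e1
      have e2' := hinj v u v' u' (hle0 h).symm (hle1 h').symm e2
      subst e1' e2'
      exact (SimpleGraph.disjoint_left.mp hdisj u v) h h'

/-- The vertices of the templates. -/
inductive Vx : Type
  | cen (i : ℕ) : Vx
  | clq (i b x : ℕ) : Vx
  | leaf (i b x l : ℕ) : Vx
  | spare (i b x : ℕ) : Vx

open Vx

/-- The edges of the templates. -/
inductive TRel (m r B j p : ℕ) : Vx → Vx → Prop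
  | cc (i b x : ℕ) : i < m → r ≤ i → b < B → x < j → TRel m r B j p (cen i) (clq i b x)
  | cs (i b x : ℕ) : i < m → r ≤ i → b < B → x < j → TRel m r B j p (cen i) (spare i b x)
  | qq (i b x y : ℕ) : i < m → b < B → x < j → y < j → x ≠ y →
      TRel m r B j p (clq i b x) (clq i b y)
  | ql (i b x l : ℕ) : i < m → b < B → x < j → l < p →
      TRel m r B j p (clq i b x) (leaf i b x l)

/-- The template with `m` slots, of which those with index at least `r` have a centre, `B` blades
in each slot, cliques of order `j` and `p` leaves at each clique vertex. -/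
def T (m r B j p : ℕ) : SimpleGraph Vx where
  Adj u v := TRel m r B j p u v ∨ TRel m r B j p v u
  symm := ⟨fun _ _ h => h.symm⟩
  loopless := ⟨by
    rintro a (h | h)
    · cases h; contradiction
    · cases h; contradiction⟩

/-- Non-isolated vertices of a template. -/
def OK (m r B j p : ℕ) : Vx → Prop
  | cen i => i < m ∧ r ≤ i
  | clq i b x => i < m ∧ b < B ∧ x < j
  | leaf i b x l => i < m ∧ b < B ∧ x < j ∧ l < p
  | spare i b x => i < m ∧ r ≤ i ∧ b < B ∧ x < j

theorem T_ok {m r B j p : ℕ} {u v : Vx} (h : (T m r B j p).Adj u v) : OK m r B j p u := by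
  rcases h with h | h
  · cases h <;> simp only [OK] <;> omega
  · cases h <;> simp only [OK] <;> omega

theorem T_ok' {m r B j p : ℕ} {u v : Vx} (h : TRel m r B j p u v) :
    OK m r B j p u ∧ OK m r B j p v :=
  ⟨T_ok (u := u) (v := v) (Or.inl h), T_ok (u := v) (v := u) (Or.inr h)⟩

/-- The edges of the matching used in a round. -/
inductive MRel (m r B j p : ℕ) : Vx → Vx → Prop
  | mk (b x : ℕ) : r < m → b < 2 * B → x < j → MRel m r B j p (clq r b x) (leaf r b x p)

/-- The matching used in a round. -/
def MG (m r B j p : ℕ) : SimpleGraph Vx where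
  Adj u v := MRel m r B j p u v ∨ MRel m r B j p v u
  symm := ⟨fun _ _ h => h.symm⟩
  loopless := ⟨by
    rintro a (h | h)
    · cases h
    · cases h⟩

/-- The two copies of the next template in the grown template. -/
def sh (r B p c : ℕ) : Vx → Option Vx
  | cen i => if i = r then none else some (cen i)
  | clq i b x => some (clq i (b + c * B) x)
  | leaf i b x l => some (leaf i (b + c * B) x l)
  | spare i b x => if i = r then some (leaf i (b + c * B) x p) else some (spare i (b + c * B) x)

theorem MG_le (m r B j p : ℕ) : MG m r B j p ≤ T m (r + 1) (2 * B) j (p + 1) := by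
  rintro u v (h | h)
  · cases h with
    | mk b x h1 h2 h3 => exact Or.inl (TRel.ql _ _ _ _ h1 h2 h3 (by omega))
  · cases h with
    | mk b x h1 h2 h3 => exact Or.inr (TRel.ql _ _ _ _ h1 h2 h3 (by omega))

theorem MG_match (m r B j p : ℕ) (u v w : Vx) (h : (MG m r B j p).Adj u v)
    (h' : (MG m r B j p).Adj u w) : v = w := by
  rcases h with h | h
  · cases h
    rcases h' with h' | h'
    · cases h'; rfl
    · cases h'
  · cases h
    rcases h' with h' | h'
    · cases h'
    · cases h'; rfl

theorem sh_hom {m r B j p c : ℕ} (hr : r < m) (hc : c < 2) {u v : Vx}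
    (h : TRel m r B j p u v) :
    (grow (T m (r + 1) (2 * B) j (p + 1)) (MG m r B j p)).Adj (sh r B p c u) (sh r B p c v) := by
  have hb : ∀ b, b < B → b + c * B < 2 * B := by
    intro b hb
    have : c * B ≤ 1 * B := Nat.mul_le_mul_right _ (by omega)
    omega
  cases h with
  | cc i b x h1 h2 h3 h4 =>
    by_cases hi : i = r
    · subst hi
      simp only [sh, if_true]
      exact ⟨leaf i (b + c * B) x p, Or.inl (MRel.mk _ _ hr (hb _ h3) h4)⟩
    · simp only [sh, if_neg hi]
      refine ⟨Or.inl (TRel.cc _ _ _ h1 (by omega) (hb _ h3) h4), ?_⟩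
      rintro (h | h) <;> cases h
  | cs i b x h1 h2 h3 h4 =>
    by_cases hi : i = r
    · subst hi
      simp only [sh, if_true]
      exact ⟨clq i (b + c * B) x, Or.inr (MRel.mk _ _ hr (hb _ h3) h4)⟩
    · simp only [sh, if_neg hi]
      refine ⟨Or.inl (TRel.cs _ _ _ h1 (by omega) (hb _ h3) h4), ?_⟩
      rintro (h | h) <;> cases h
  | qq i b x y h1 h2 h3 h4 h5 =>
    simp only [sh]
    refine ⟨Or.inl (TRel.qq _ _ _ _ h1 (hb _ h2) h3 h4 h5), ?_⟩
    rintro (h | h) <;> cases h
  | ql i b x l h1 h2 h3 h4 =>
    simp only [sh]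
    refine ⟨Or.inl (TRel.ql _ _ _ _ h1 (hb _ h2) h3 (by omega)), ?_⟩
    rintro (h | h)
    · cases h
      omega
    · cases h

theorem sh_inj {m r B j p c : ℕ} {u v : Vx} (hu : OK m r B j p u) (hv : OK m r B j p v)
    (h : sh r B p c u = sh r B p c v) : u = v := by
  cases u <;> cases v <;> simp only [sh, OK] at h hu hv ⊢ <;> (try split_ifs at h) <;>
    simp only [Option.some.injEq, reduceCtorEq, cen.injEq, clq.injEq, leaf.injEq,
      spare.injEq] at h ⊢ <;> omega

theorem sh_disj {m r B j p : ℕ} {u v u' v' : Vx} (h : TRel m r B j p u v)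
    (h' : (T m r B j p).Adj u' v')
    (e1 : sh r B p 0 u = sh r B p 1 u') (e2 : sh r B p 0 v = sh r B p 1 v') : False := by
  cases h with
  | cc i b x h1 h2 h3 h4 =>
    cases v' <;> simp only [sh] at e2 <;> (try split_ifs at e2) <;>
      simp only [Option.some.injEq, reduceCtorEq, cen.injEq, clq.injEq, leaf.injEq,
        spare.injEq] at e2 <;> omega
  | cs i b x h1 h2 h3 h4 =>
    cases v' <;> simp only [sh] at e2 <;> (try split_ifs at e2) <;>
      simp only [Option.some.injEq, reduceCtorEq, cen.injEq, clq.injEq, leaf.injEq,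
        spare.injEq] at e2 <;> omega
  | qq i b x y h1 h2 h3 h4 h5 =>
    cases v' <;> simp only [sh] at e2 <;> (try split_ifs at e2) <;>
      simp only [Option.some.injEq, reduceCtorEq, cen.injEq, clq.injEq, leaf.injEq,
        spare.injEq] at e2 <;> omega
  | ql i b x l h1 h2 h3 h4 =>
    cases v' <;> simp only [sh] at e2 <;> (try split_ifs at e2) <;>
      simp only [Option.some.injEq, reduceCtorEq, cen.injEq, clq.injEq, leaf.injEq,
        spare.injEq] at e2 <;> omega

theorem round {k t m r B j p : ℕ} (hr : r < m) (h : Forces k t (T m r B j p)) :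
    Forces k (t + 1) (T m (r + 1) (2 * B) j (p + 1)) := by
  have hom : ∀ c, c < 2 → ∀ u v, (T m r B j p).Adj u v →
      (grow (T m (r + 1) (2 * B) j (p + 1)) (MG m r B j p)).Adj (sh r B p c u)
        (sh r B p c v) := by
    rintro c hc u v (h | h)
    · exact sh_hom hr hc h
    · exact (sh_hom hr hc h).symm
  refine Forces.step (fun hE' hF' => Forces.mono t hE' hF') (MG m r B j p) (MG_le m r B j p)
    (MG_match m r B j p) (sh r B p 0) (sh r B p 1) (hom 0 (by norm_num)) (hom 1 (by norm_num))
    (fun u u' v v' hu hv he => sh_inj (T_ok hu) (T_ok hv) he)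
    (fun u u' v v' hu hv he => sh_inj (T_ok hu) (T_ok hv) he) ?_ h h
  rintro u v u' v' (h | h) h' e1 e2
  · exact sh_disj h h' e1 e2
  · exact sh_disj h h'.symm e2 e1

theorem rounds {k t m j : ℕ} : ∀ (r B p : ℕ), r ≤ m → Forces k t (T m 0 B j p) →
    Forces k (t + r) (T m r (2 ^ r * B) j (p + r))
  | 0, B, p, _, h => by simpa using h
  | r + 1, B, p, hr, h => by
    have h1 := rounds r B p (by omega) h
    have h2 := round (k := k) (t := t + r) (m := m) (r := r) (B := 2 ^ r * B) (j := j)
      (p := p + r) (by omega) h1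
    have e1 : 2 * (2 ^ r * B) = 2 ^ (r + 1) * B := by ring
    rw [e1] at h2
    exact h2

/-- The disjoint units become the blades of a template. -/
theorem emb_units {m B j p : ℕ} : Emb (T m m B j p) (T (m * B) (m * B) 1 j p) := by
  refine ⟨fun u => match u with
    | cen i => cen i
    | clq i b x => clq (i * B + b) 0 x
    | leaf i b x l => leaf (i * B + b) 0 x l
    | spare i b x => spare i b x, ?_, ?_⟩
  · have key : ∀ u v, TRel m m B j p u v → ∀ i b, i < m → b < B → i * B + b < m * B := by
      intro u v _ i b hi hb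
      calc i * B + b < i * B + B := by omega
        _ = (i + 1) * B := by ring
        _ ≤ m * B := Nat.mul_le_mul_right _ (by omega)
    rintro u v (h | h)
    · cases h with
      | cc i b x h1 h2 h3 h4 => omega
      | cs i b x h1 h2 h3 h4 => omega
      | qq i b x y h1 h2 h3 h4 h5 =>
        exact Or.inl (TRel.qq _ _ _ _ (key _ _ (TRel.qq i b x y h1 h2 h3 h4 h5) _ _ h1 h2)
          (by norm_num) h3 h4 h5)
      | ql i b x l h1 h2 h3 h4 =>
        exact Or.inl (TRel.ql _ _ _ _ (key _ _ (TRel.ql i b x l h1 h2 h3 h4) _ _ h1 h2)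
          (by norm_num) h3 h4)
    · cases h with
      | cc i b x h1 h2 h3 h4 => omega
      | cs i b x h1 h2 h3 h4 => omega
      | qq i b x y h1 h2 h3 h4 h5 =>
        exact Or.inr (TRel.qq _ _ _ _ (key _ _ (TRel.qq i b x y h1 h2 h3 h4 h5) _ _ h1 h2)
          (by norm_num) h3 h4 h5)
      | ql i b x l h1 h2 h3 h4 =>
        exact Or.inr (TRel.ql _ _ _ _ (key _ _ (TRel.ql i b x l h1 h2 h3 h4) _ _ h1 h2)
          (by norm_num) h3 h4)
  · intro u u' v v' hu hv he
    have hu := T_ok hu
    have hv := T_ok hv
    have key : ∀ i b i' b', b < B → b' < B → i * B + b = i' * B + b' → i = i' ∧ b = b' := by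
      intro i b i' b' hb hb' h
      have hB : 0 < B := by omega
      have e1 : (i * B + b) / B = i := by
        rw [mul_comm, Nat.mul_add_div hB, Nat.div_eq_of_lt hb]; rfl
      have e2 : (i' * B + b') / B = i' := by
        rw [mul_comm, Nat.mul_add_div hB, Nat.div_eq_of_lt hb']; rfl
      have : i = i' := by rw [← e1, ← e2, h]
      subst this
      exact ⟨rfl, by omega⟩
    cases u <;> cases v <;> simp only [OK, reduceCtorEq] at he hu hv ⊢
    · exact he
    · simp only [clq.injEq] at he ⊢
      have := key _ _ _ _ hu.2.1 hv.2.1 he.1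
      exact ⟨this.1, this.2, he.2.2⟩
    · simp only [leaf.injEq] at he ⊢
      have := key _ _ _ _ hu.2.1 hv.2.1 he.1
      exact ⟨this.1, this.2, he.2.2.1, he.2.2.2⟩
    · exact he

/-- The windmills contain disjoint cliques of the next order with leaves. -/
theorem emb_next {m B j p : ℕ} (hj : 0 < j) (hB : 0 < B) (hp : p ≤ B) :
    Emb (T m m 1 (j + 1) p) (T m 0 B j p) := by
  refine ⟨fun u => match u with
    | cen i => spare i 0 0
    | clq i b x => if x = j then cen i else clq i b x
    | leaf i b x l => if x = j then spare i l 0 else leaf i b x l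
    | spare i b x => spare i b x, ?_, ?_⟩
  · have key : ∀ u v, TRel m m 1 (j + 1) p u v → (T m 0 B j p).Adj
        ((fun u => match u with
          | cen i => spare i 0 0
          | clq i b x => if x = j then cen i else clq i b x
          | leaf i b x l => if x = j then spare i l 0 else leaf i b x l
          | spare i b x => spare i b x : Vx → Vx) u)
        ((fun u => match u with
          | cen i => spare i 0 0
          | clq i b x => if x = j then cen i else clq i b x
          | leaf i b x l => if x = j then spare i l 0 else leaf i b x l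
          | spare i b x => spare i b x : Vx → Vx) v) := by
      intro u v h
      cases h with
      | cc i b x h1 h2 h3 h4 => omega
      | cs i b x h1 h2 h3 h4 => omega
      | qq i b x y h1 h2 h3 h4 h5 =>
        by_cases hx : x = j
        · have hy : y ≠ j := by omega
          simp only [if_pos hx, if_neg hy]
          exact Or.inl (TRel.cc _ _ _ h1 (by omega) (by omega) (by omega))
        · by_cases hy : y = j
          · simp only [if_neg hx, if_pos hy]
            exact Or.inr (TRel.cc _ _ _ h1 (by omega) (by omega) (by omega))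
          · simp only [if_neg hx, if_neg hy]
            exact Or.inl (TRel.qq _ _ _ _ h1 (by omega) (by omega) (by omega) h5)
      | ql i b x l h1 h2 h3 h4 =>
        by_cases hx : x = j
        · simp only [if_pos hx]
          exact Or.inl (TRel.cs _ _ _ h1 (by omega) (by omega) hj)
        · simp only [if_neg hx]
          exact Or.inl (TRel.ql _ _ _ _ h1 (by omega) (by omega) h4)
    rintro u v (h | h)
    · exact key u v h
    · exact (key v u h).symm
  · intro u u' v v' hu hv he
    have hu := T_ok hu
    have hv := T_ok hv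
    cases u <;> cases v <;> simp only [OK] at he hu hv ⊢ <;> (try split_ifs at he) <;>
      simp only [reduceCtorEq, cen.injEq, clq.injEq, leaf.injEq, spare.injEq] at he ⊢ <;> omega

end Q160.DPG
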