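import Pool.Agent.Q160.DPG.Upper

/-!
# The number of rounds of Builder's strategy
-/

namespace Q160.DPG

open Vx

theorem stage {k t m j p : ℕ} (hj : 0 < j) (h : Forces k t (T m m 1 (j + 1) p)) :
    Forces k (t + m) (T (m * (2 ^ m * max p 1)) (m * (2 ^ m * max p 1)) 1 j (p + m)) := by
  have h1 : Forces k t (T m 0 (max p 1) j p) :=
    Forces.mono t (emb_next hj (by omega) (le_max_left _ _)) h
  exact Forces.mono _ emb_units (rounds m (max p 1) p le_rfl h1)

/-- Number of disjoint cliques and number of leaves after `i` stages, counted from the end. -/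
def mp : ℕ → ℕ × ℕ
  | 0 => (1, 0)
  | i + 1 => ((mp i).1 * (2 ^ (mp i).1 * max (mp i).2 1), (mp i).2 + (mp i).1)

theorem base (k : ℕ) : Forces k 0 (T 1 1 1 k 0) := by
  change ¬ _
  rw [not_cliqueFree_iff']
  refine ⟨fun i => clq 0 0 i, fun i j h => ?_⟩
  exact Or.inl (TRel.qq _ _ _ _ (by norm_num) (by norm_num) i.2 j.2
    (fun e => h (Fin.ext e)))

theorem chain (k : ℕ) : ∀ i, i < k →
    Forces k (mp i).2 (T (mp i).1 (mp i).1 1 (k - i) (mp i).2)
  | 0, _ => base k
  | i + 1, hi => by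
    have h := chain k i (by omega)
    have e : k - i = (k - (i + 1)) + 1 := by omega
    rw [e] at h
    exact stage (by omega) h

theorem exists_fin {k t : ℕ} {V : Type} (G : SimpleGraph V) (S : Set V) (hS : S.Finite)
    (hne : S.Nonempty) (h : ∀ u v, G.Adj u v → u ∈ S) (hG : G.CliqueFree 3)
    (hF : Forces k t G) :
    ∃ (n : ℕ) (H : SimpleGraph (Fin n)), H.CliqueFree 3 ∧ Forces k t H := by
  classical
  haveI := hS.fintype
  obtain ⟨v0, hv0⟩ := hne
  let e := Fintype.equivFin S
  refine ⟨Fintype.card S, G.comap (fun a => (e.symm a : V)), ?_, ?_⟩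
  · by_contra hc
    rw [not_cliqueFree_iff'] at hc
    obtain ⟨f, hf⟩ := hc
    refine (not_cliqueFree_iff' G 3).mpr ⟨fun i => (e.symm (f i) : V), fun i j hij => ?_⟩ hG
    exact hf i j hij
  · refine Forces.mono t ⟨fun v => if hv : v ∈ S then e ⟨v, hv⟩ else e ⟨v0, hv0⟩, ?_, ?_⟩ hF
    · intro u v huv
      have hu := h u v huv
      have hv := h v u huv.symm
      simp only [dif_pos hu, dif_pos hv, SimpleGraph.comap_adj, Equiv.symm_apply_apply]
      exact huv
    · intro u u' v v' huu hvv he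
      have hu := h u u' huu
      have hv := h v v' hvv
      simp only [dif_pos hu, dif_pos hv] at he
      have := e.injective he
      exact congrArg Subtype.val this

theorem T_cliqueFree (m p : ℕ) : (T m m 1 2 p).CliqueFree 3 := by
  have hc : (T m m 1 2 p).Colorable 2 := by
    refine ⟨SimpleGraph.Coloring.mk (fun u => match u with
      | cen i => 0
      | clq i b x => if x = 0 then 0 else 1
      | leaf i b x l => if x = 0 then 1 else 0
      | spare i b x => 0) ?_⟩
    rintro u v (h | h)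
    · cases h with
      | cc i b x h1 h2 h3 h4 => omega
      | cs i b x h1 h2 h3 h4 => omega
      | qq i b x y h1 h2 h3 h4 h5 =>
        by_cases hx : x = 0
        · have hy : y ≠ 0 := by omega
          simp [hx, hy]
        · have hy : y = 0 := by omega
          simp [hx, hy]
      | ql i b x l h1 h2 h3 h4 =>
        by_cases hx : x = 0 <;> simp [hx]
    · cases h with
      | cc i b x h1 h2 h3 h4 => omega
      | cs i b x h1 h2 h3 h4 => omega
      | qq i b x y h1 h2 h3 h4 h5 =>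
        by_cases hx : x = 0
        · have hy : y ≠ 0 := by omega
          simp [hx, hy]
        · have hy : y = 0 := by omega
          simp [hx, hy]
      | ql i b x l h1 h2 h3 h4 =>
        by_cases hx : x = 0 <;> simp [hx]
  exact hc.cliqueFree (by norm_num)

theorem T_finite (m p : ℕ) : {v | OK m m 1 2 p v}.Finite := by
  have h1 : ((fun q : ℕ × ℕ × ℕ => clq q.1 q.2.1 q.2.2) ''
      (Set.Iio m ×ˢ Set.Iio 1 ×ˢ Set.Iio 2)).Finite :=
    Set.Finite.image _ ((Set.finite_Iio m).prod ((Set.finite_Iio 1).prod (Set.finite_Iio 2)))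
  have h2 : ((fun q : ℕ × ℕ × ℕ × ℕ => leaf q.1 q.2.1 q.2.2.1 q.2.2.2) ''
      (Set.Iio m ×ˢ Set.Iio 1 ×ˢ Set.Iio 2 ×ˢ Set.Iio p)).Finite :=
    Set.Finite.image _ ((Set.finite_Iio m).prod ((Set.finite_Iio 1).prod
      ((Set.finite_Iio 2).prod (Set.finite_Iio p))))
  refine (h1.union h2).subset ?_
  intro v hv
  cases v with
  | cen i => simp only [Set.mem_setOf_eq, OK] at hv; omega
  | clq i b x =>
    simp only [Set.mem_setOf_eq, OK] at hv
    exact Or.inl ⟨(i, b, x), ⟨hv.1, hv.2.1, hv.2.2⟩, rfl⟩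
  | leaf i b x l =>
    simp only [Set.mem_setOf_eq, OK] at hv
    exact Or.inr ⟨(i, b, x, l), ⟨hv.1, hv.2.1, hv.2.2.1, hv.2.2.2⟩, rfl⟩
  | spare i b x => simp only [Set.mem_setOf_eq, OK] at hv; omega

theorem mp_pos : ∀ i, 0 < (mp i).1
  | 0 => by norm_num [mp]
  | i + 1 => by
    have := mp_pos i
    simp only [mp]
    positivity

theorem exists_forces (k : ℕ) (hk : 2 ≤ k) :
    ∃ (n : ℕ) (H : SimpleGraph (Fin n)), H.CliqueFree 3 ∧ Forces k (mp (k - 2)).2 H := by
  have h := chain k (k - 2) (by omega)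
  have e : k - (k - 2) = 2 := by omega
  rw [e] at h
  refine exists_fin _ {v | OK _ _ 1 2 _ v} (T_finite _ _) ⟨clq 0 0 0, ?_⟩
    (fun u v huv => T_ok huv) (T_cliqueFree _ _) h
  exact ⟨mp_pos _, by norm_num, by norm_num⟩

theorem mp_bound : ∀ i, (mp (i + 3)).2 ≤ (mp (i + 3)).1 ∧ 2 ≤ (mp (i + 3)).1 ∧
    4 * (mp (i + 3)).1 ≤ tower (i + 4)
  | 0 => by norm_num [mp, tower]
  | i + 1 => by
    obtain ⟨h1, h2, h3⟩ := mp_bound i
    have e : mp (i + 1 + 3) = ((mp (i + 3)).1 * (2 ^ (mp (i + 3)).1 * max (mp (i + 3)).2 1),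
      (mp (i + 3)).2 + (mp (i + 3)).1) := rfl
    rw [e]
    generalize (mp (i + 3)).1 = m at *
    generalize (mp (i + 3)).2 = p at *
    have hm : m < 2 ^ m := Nat.lt_two_pow_self
    have hmax : max p 1 ≤ m := by omega
    have h1' : 1 ≤ max p 1 := le_max_right _ _
    have hge : 2 * m ≤ m * (2 ^ m * max p 1) := by
      calc 2 * m = m * (2 * 1) := by ring
        _ ≤ m * (2 ^ m * max p 1) := by
          apply Nat.mul_le_mul_left
          apply Nat.mul_le_mul _ h1'
          omega
    refine ⟨?_, ?_, ?_⟩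
    · simp only
      omega
    · simp only
      omega
    · simp only
      calc 4 * (m * (2 ^ m * max p 1)) ≤ 2 ^ 2 * (2 ^ m * (2 ^ m * 2 ^ m)) := by
            apply Nat.mul_le_mul (by norm_num)
            apply Nat.mul_le_mul hm.le
            apply Nat.mul_le_mul_left
            omega
        _ = 2 ^ (2 + (m + (m + m))) := by rw [pow_add, pow_add, pow_add]
        _ ≤ 2 ^ tower (i + 4) := Nat.pow_le_pow_right (by norm_num) (by omega)
        _ = tower (i + 1 + 4) := rfl

theorem mp_le_tower (i : ℕ) : (mp i).2 ≤ tower i := by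
  match i with
  | 0 => norm_num [mp, tower]
  | 1 => norm_num [mp, tower]
  | 2 => norm_num [mp, tower]
  | 3 => norm_num [mp, tower]
  | i + 4 =>
    obtain ⟨h1, h2, h3⟩ := mp_bound i
    have e : (mp (i + 4)).2 = (mp (i + 3)).2 + (mp (i + 3)).1 := rfl
    rw [e]
    omega

theorem rho_le (k : ℕ) (hk : 2 ≤ k) : rho k ≤ (tower (k - 2) : ℕ∞) := by
  obtain ⟨n, H, hH, hF⟩ := exists_forces k hk
  calc rho k ≤ tau k H := by
        unfold rho
        exact iInf_le_of_le n (iInf_le_of_le H (iInf_le_of_le hH le_rfl))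
    _ ≤ ((mp (k - 2)).2 : ℕ∞) := by
        unfold tau
        exact iInf_le_of_le _ (iInf_le_of_le hF le_rfl)
    _ ≤ (tower (k - 2) : ℕ∞) := by exact_mod_cast mp_le_tower (k - 2)

end Q160.DPG
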